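import Mathlib
import Pool.Agent.Run7.h256.M9
import Pool.Agent.Run7.h256.N3

set_option autoImplicit false

open MvPolynomial Run7.h256

/-- The maximum number of centres of planar polynomial systems of degree four is eight: every system of degree at
most four has at most eight centres (degenerate ones included), and some system of degree four with finitely many
equilibria has exactly eight. -/
theorem Pool.Agent.Results.MP_eebd99_an.MaxCentersFour.result :
    (∀ P Q : MvPolynomial (Fin 2) ℝ, P.totalDegree ≤ 4 → Q.totalDegree ≤ 4 →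
      {p : Fin 2 → ℝ | IsCenter P Q p}.encard ≤ 8) ∧
    ∃ P Q : MvPolynomial (Fin 2) ℝ, max P.totalDegree Q.totalDegree = 4 ∧
      {p : Fin 2 → ℝ | eval p P = 0 ∧ eval p Q = 0}.Finite ∧
      {p : Fin 2 → ℝ | IsCenter P Q p}.encard = 8 := by
  refine ⟨fun P Q hP hQ => stage5 P Q hP hQ, Fi 1, -Fi 0, ?_, ex_fin, ?_⟩
  · rw [totalDegree_neg, Fi_deg, Fi_deg, max_self]
  · apply le_antisymm _ ex_eight
    apply stage5
    · exact (Fi_deg 1).le
    · rw [totalDegree_neg]; exact (Fi_deg 0).le
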