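import Mathlib
import Pool.Agent.Run7.h256.S3

set_option autoImplicit false

open MvPolynomial Run7.h256

/-- For every `n ≥ 2`, the maximum number of centres (degenerate ones included) among planar polynomial systems of
degree `n` with finitely many equilibria whose divergence has degree at most `n - 2` is exactly the integer part of
`(n^2+1)/2`. -/
theorem Pool.Agent.Results.MP_eebd99_an.TopDivergenceFree.result (n : ℕ) (hn : 2 ≤ n) :
    IsGreatest {k : ℕ∞ | ∃ P Q : MvPolynomial (Fin 2) ℝ, max P.totalDegree Q.totalDegree = n ∧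
      (pderiv 0 P + pderiv 1 Q).totalDegree + 2 ≤ n ∧
      {p : Fin 2 → ℝ | eval p P = 0 ∧ eval p Q = 0}.Finite ∧
      {p : Fin 2 → ℝ | IsCenter P Q p}.encard = k}
      (((n ^ 2 + 1) / 2 : ℕ) : ℕ∞) :=
  Bz.max_all n hn
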